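import Pool.Agent.Hhelper7.PSQ.Static
import Pool.Agent.Hhelper21.PSC.SliceX

/-!
# Prefix-suffix square completion: a language which is not semilinear

The Parikh image of `L(w)` is not semilinear for the word `w = 0 1 2 3 4 5 6 7 8 1 9` over an alphabet
with ten letters. This answers Q1 in the negative.
-/

set_option autoImplicit false

namespace Pool.Agent.Results.MP_9a8bc6_lc.NotSemilinear

open Pool.Agent.PSC

theorem result :
    ¬ IsSemilinearSet (parikh '' Lang ([0, 1, 2, 3, 4, 5, 6, 7, 8, 1, 9] : List (Fin 10))) := by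
  refine not_semilinear_of_slice _ ?_ ?_
  · rintro v ⟨u, hu, rfl⟩ h0 h1 h2 h3 h4 h5 h6 h8 k hk h7
    exact Pool.Agent.PSQ.slice hu h0 h1 h2 h3 h4 h5 h6 h8 k hk h7
  · intro k hk j hj
    obtain ⟨u, hu, hu'⟩ := exists_word k j hk hj
    exact ⟨u, hu, hu'⟩

end Pool.Agent.Results.MP_9a8bc6_lc.NotSemilinear
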