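import Pool.Agent.Hhelper21.PSC.Assembly

/-!
# Prefix-suffix square completion: vectors with one unbounded coordinate

For every word `w` over every finite alphabet the part of the Parikh image of `L(w)` in which all
coordinates but one are bounded is semilinear.
-/

set_option autoImplicit false

namespace Pool.Agent.Results.MP_9a8bc6_lc.OneFreeLetter

open Pool.Agent.PSC

theorem result : ∀ (α : Type) [Fintype α] [DecidableEq α] (w : List α) (b : α) (C : ℕ),
    IsSemilinearSet {v ∈ parikh '' Lang w | ∀ a, a ≠ b → v a ≤ C} := by
  intro α _ _ w b C
  exact strip_semilinear w b C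

end Pool.Agent.Results.MP_9a8bc6_lc.OneFreeLetter
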