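import Pool.Agent.Hhelper21.PSC.Assembly

/-!
# Prefix-suffix square completion over at most three letters

The Parikh image of `L(w)` is semilinear for every word `w` in which at most three different letters
occur.
-/

set_option autoImplicit false

namespace Pool.Agent.Results.MP_9a8bc6_lc.TernaryAlphabets

open Pool.Agent.PSC

theorem result : ∀ (α : Type) [Fintype α] [DecidableEq α] (w : List α), w.toFinset.card ≤ 3 →
    IsSemilinearSet (parikh '' Lang w) := by
  intro α _ _ w h
  exact semi_le_three w h

end Pool.Agent.Results.MP_9a8bc6_lc.TernaryAlphabets
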